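import Mathlib

/-!
# The hiding set bound does not determine the relaxation complexity up to a constant

For every dimension `d ≥ 3` the difference `rc X - H X` is unbounded over finite,
full-dimensional, lattice-convex sets `X ⊆ ℤ^d`.
-/

open Set

namespace Pool.Agent.Results.MP_288038_co.HidingGap

noncomputable section

/-- The inclusion `ℤ^d → ℝ^d`. -/
def toReal {d : ℕ} (z : Fin d → ℤ) : Fin d → ℝ := fun i => (z i : ℝ)

/-- The convex hull in `ℝ^d` of a set of lattice points. -/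
def hull {d : ℕ} (X : Set (Fin d → ℤ)) : Set (Fin d → ℝ) := convexHull ℝ (toReal '' X)

/-- `X` is lattice-convex: every lattice point of `conv X` is in `X`. -/
def LatticeConvex {d : ℕ} (X : Set (Fin d → ℤ)) : Prop :=
  ∀ z : Fin d → ℤ, toReal z ∈ hull X → z ∈ X

/-- `X` is full-dimensional: its affine hull is all of `ℝ^d`. -/
def FullDimensional {d : ℕ} (X : Set (Fin d → ℤ)) : Prop :=
  affineSpan ℝ (toReal '' X) = ⊤

/-- `X` is the set of lattice points of a polyhedron in `ℝ^d` described by `k` linear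
inequalities with real coefficients. -/
def HasRelaxation {d : ℕ} (X : Set (Fin d → ℤ)) (k : ℕ) : Prop :=
  ∃ (a : Fin k → Fin d → ℝ) (b : Fin k → ℝ),
    ∀ z : Fin d → ℤ, z ∈ X ↔ ∀ i, ∑ j, a i j * toReal z j ≤ b i

/-- The relaxation complexity: the least number of inequalities (for full-dimensional `X`:
the least number of facets) of a relaxation of `X`. -/
def rc {d : ℕ} (X : Set (Fin d → ℤ)) : ℕ := sInf {k : ℕ | HasRelaxation X k}

/-- Finite hiding sets of `X`. -/
def IsHiding {d : ℕ} (X : Set (Fin d → ℤ)) (H : Finset (Fin d → ℤ)) : Prop :=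
  (∀ p ∈ H, p ∉ X) ∧
    ∀ p ∈ H, ∀ q ∈ H, p ≠ q → (segment ℝ (toReal p) (toReal q) ∩ hull X).Nonempty

/-- The hiding set bound, as a supremum in `ℕ∞` of the sizes of finite hiding sets. -/
def hidingBound {d : ℕ} (X : Set (Fin d → ℤ)) : ℕ∞ :=
  ⨆ (H : Finset (Fin d → ℤ)) (_ : IsHiding X H), (H.card : ℕ∞)

/-! ### General lemmas -/

variable {d : ℕ}

lemma hull_le {X : Set (Fin d → ℤ)} (φ : (Fin d → ℝ) →ₗ[ℝ] ℝ) (c : ℝ)
    (hX : ∀ z ∈ X, φ (toReal z) ≤ c) {y : Fin d → ℝ} (hy : y ∈ hull X) : φ y ≤ c := by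
  have : hull X ⊆ {y | φ y ≤ c} := by
    refine convexHull_min ?_ (convex_halfSpace_le φ.isLinear c)
    rintro _ ⟨z, hz, rfl⟩
    exact hX z hz
  exact this hy

/-- Two points strictly beyond a common valid inequality do not hide each other. -/
lemma not_hidden {X : Set (Fin d → ℤ)} (φ : (Fin d → ℝ) →ₗ[ℝ] ℝ) (c : ℝ)
    (hX : ∀ z ∈ X, φ (toReal z) ≤ c) {p q : Fin d → ℤ} (hp : c < φ (toReal p))
    (hq : c < φ (toReal q)) : ¬ (segment ℝ (toReal p) (toReal q) ∩ hull X).Nonempty := by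
  rintro ⟨y, hy1, hy2⟩
  have h1 : segment ℝ (toReal p) (toReal q) ⊆ {y | c < φ y} :=
    (convex_halfSpace_gt φ.isLinear c).segment_subset hp hq
  exact absurd (hull_le φ c hX hy2) (not_le.mpr (h1 hy1))

/-- Upper bound for hiding sets from a finite family of cells. -/
lemma hidingBound_le {X : Set (Fin d → ℤ)} {ι : Type} [Fintype ι] (Q : ι → (Fin d → ℤ) → Prop)
    (hQ : ∀ p, p ∉ X → ∃ c, Q c p)
    (hQ2 : ∀ c p q, Q c p → Q c q → ∃ (φ : (Fin d → ℝ) →ₗ[ℝ] ℝ) (r : ℝ),
      (∀ z ∈ X, φ (toReal z) ≤ r) ∧ r < φ (toReal p) ∧ r < φ (toReal q)) :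
    hidingBound X ≤ (Fintype.card ι : ℕ∞) := by
  classical
  refine iSup₂_le fun H hH => ?_
  have hcell : ∀ p : H, ∃ c, Q c p.1 := fun p => hQ p.1 (hH.1 p.1 p.2)
  choose f hf using hcell
  have hinj : Function.Injective f := by
    intro p q hpq
    by_contra hne
    have hne' : p.1 ≠ q.1 := fun h => hne (Subtype.ext h)
    obtain ⟨φ, r, hX, h1, h2⟩ := hQ2 (f p) p.1 q.1 (hf p) (by rw [hpq]; exact hf q)
    exact not_hidden φ r hX h1 h2 (hH.2 p.1 p.2 q.1 q.2 hne')
  have := Fintype.card_le_of_injective f hinj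
  rw [Fintype.card_coe] at this
  exact_mod_cast this

/-- Lower bound for relaxations from triples of points whose centroid is in `X`. -/
lemma card_le_of_hasRelaxation {X : Set (Fin d → ℤ)} {V : Type} [Fintype V]
    (P : V → Fin 3 → (Fin d → ℤ)) (c : V → (Fin d → ℤ)) (hP : ∀ v j, P v j ∉ X)
    (hc : ∀ v, c v ∈ X) (hsum : ∀ v, P v 0 + P v 1 + P v 2 = c v + c v + c v)
    (hw : ∀ v v', v ≠ v' → ∀ j j', ∃ w, P v j + w ∈ X ∧ P v' j' - w ∈ X)
    {k : ℕ} (hk : HasRelaxation X k) : 2 * Fintype.card V ≤ k := by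
  classical
  obtain ⟨a, b, hab⟩ := hk
  set F : Fin k → (Fin d → ℤ) → ℝ := fun i z => ∑ j, a i j * toReal z j with hF
  have hadd : ∀ i x y, F i (x + y) = F i x + F i y := by
    intro i x y
    simp only [hF, toReal, Pi.add_apply, Int.cast_add, mul_add, Finset.sum_add_distrib]
  have hsub : ∀ i x y, F i (x - y) = F i x - F i y := by
    intro i x y
    simp only [hF, toReal, Pi.sub_apply, Int.cast_sub, mul_sub, Finset.sum_sub_distrib]
  -- the inequalities violated by one of the three points at `v`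
  let J : V → Finset (Fin k) := fun v => Finset.univ.filter fun i => ∃ j, b i < F i (P v j)
  have hJ : ∀ v, 2 ≤ (J v).card := by
    intro v
    have hex : ∀ j, ∃ i, b i < F i (P v j) := by
      intro j
      have h := hP v j
      rw [hab] at h
      push Not at h
      exact h
    by_contra hlt
    have hle : (J v).card ≤ 1 := by omega
    rw [Finset.card_le_one_iff] at hle
    obtain ⟨i0, h0⟩ := hex 0
    obtain ⟨i1, h1⟩ := hex 1
    obtain ⟨i2, h2⟩ := hex 2
    have m0 : i0 ∈ J v := Finset.mem_filter.mpr ⟨Finset.mem_univ _, 0, h0⟩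
    have m1 : i1 ∈ J v := Finset.mem_filter.mpr ⟨Finset.mem_univ _, 1, h1⟩
    have m2 : i2 ∈ J v := Finset.mem_filter.mpr ⟨Finset.mem_univ _, 2, h2⟩
    have e1 : i1 = i0 := hle m1 m0
    have e2 : i2 = i0 := hle m2 m0
    subst e1
    subst e2
    have hs : F i2 (P v 0 + P v 1 + P v 2) = F i2 (c v + c v + c v) := by rw [hsum]
    rw [hadd, hadd, hadd, hadd] at hs
    have hcv : F i2 (c v) ≤ b i2 := (hab (c v)).mp (hc v) i2
    linarith
  have hdisj : ∀ v ∈ (Finset.univ : Finset V), ∀ v' ∈ (Finset.univ : Finset V), v ≠ v' →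
      Disjoint (J v) (J v') := by
    intro v _ v' _ hne
    rw [Finset.disjoint_left]
    intro i hi hi'
    obtain ⟨j, hj⟩ := (Finset.mem_filter.mp hi).2
    obtain ⟨j', hj'⟩ := (Finset.mem_filter.mp hi').2
    obtain ⟨w, hw1, hw2⟩ := hw v v' hne j j'
    have h1 : F i (P v j + w) ≤ b i := (hab _).mp hw1 i
    have h2 : F i (P v' j' - w) ≤ b i := (hab _).mp hw2 i
    rw [hadd] at h1
    rw [hsub] at h2
    linarith
  have hcard := Finset.card_biUnion hdisj
  have h1 : ∑ v : V, (J v).card ≤ k := by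
    rw [← hcard]
    calc _ ≤ (Finset.univ : Finset (Fin k)).card := Finset.card_le_card (Finset.subset_univ _)
      _ = k := by simp
  calc 2 * Fintype.card V = ∑ v : V, 2 := by simp [mul_comm]
    _ ≤ ∑ v : V, (J v).card := Finset.sum_le_sum fun v _ => hJ v
    _ ≤ k := h1

/-- Sets of lattice points defined by finitely many inequalities. -/
lemma of_inequalities {X : Set (Fin d → ℤ)} {ι : Type} [Fintype ι]
    (φ : ι → ((Fin d → ℝ) →ₗ[ℝ] ℝ)) (r : ι → ℝ)
    (hX : ∀ z, z ∈ X ↔ ∀ i, φ i (toReal z) ≤ r i) :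
    LatticeConvex X ∧ HasRelaxation X (Fintype.card ι) := by
  classical
  constructor
  · intro z hz
    rw [hX]
    intro i
    exact hull_le (φ i) (r i) (fun y hy => (hX y).mp hy i) hz
  · let e := Fintype.equivFin ι
    refine ⟨fun i j => φ (e.symm i) (Pi.single j 1), fun i => r (e.symm i), fun z => ?_⟩
    rw [hX]
    have key : ∀ i, ∑ j, φ i (Pi.single j 1) * toReal z j = φ i (toReal z) := by
      intro i
      rw [LinearMap.pi_apply_eq_sum_univ (φ i) (toReal z)]
      refine Finset.sum_congr rfl fun j _ => ?_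
      rw [smul_eq_mul, mul_comm]
      congr 2
      ext l
      simp [Pi.single_apply, eq_comm]
    constructor
    · intro h i
      rw [key]
      exact h _
    · intro h i
      have := h (e i)
      rw [key] at this
      simpa using this


/-! ### The construction

`m + 3` is the dimension, `n` the number of chain inequalities and `l` the scale. -/

section construction

variable (m n : ℕ) (l : ℤ)

/-- first coordinate -/
def i0 : Fin (m + 3) := ⟨0, by omega⟩
/-- second coordinate -/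
def i1 : Fin (m + 3) := ⟨1, by omega⟩
/-- third coordinate -/
def i2 : Fin (m + 3) := ⟨2, by omega⟩

/-- The upper bounds of the box. -/
def U (j : Fin (m + 3)) : ℤ :=
  if j.val = 0 then 2 * l * (n + 1) else if j.val = 1 then l * n ^ 2 else
    if j.val = 2 then 2 * l else 1

variable {m}

/-- The chain functional `y - i x + l i (i + 1)`. -/
def s (i : ℤ) (x : Fin (m + 3) → ℤ) : ℤ := x (i1 m) - i * x (i0 m) + l * i * (i + 1)

/-- The height above the bottom or below the top. -/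
def ht (σ : Bool) (x : Fin (m + 3) → ℤ) : ℤ := if σ then 2 * l - x (i2 m) else x (i2 m)

/-- The three local inequalities cutting off a corner. -/
def loc (a b c : ℤ) : Fin 3 → Prop :=
  ![28 ≤ 9 * a + 7 * b + 6 * c, 31 ≤ 10 * a + 9 * b + 6 * c, 31 ≤ 11 * a + 8 * b + 6 * c]

/-- A violated local inequality is never the only violated one, for nonnegative integers. -/
lemma loc_two (a b c : ℤ) (ha : 0 ≤ a) (hb : 0 ≤ b) (hc : 0 ≤ c) (h : ¬ ∀ t, loc a b c t) :
    ∃ t, ∀ u, u ≠ t → ¬ loc a b c u := by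
  have h3 : ¬ (28 ≤ 9 * a + 7 * b + 6 * c ∧ 31 ≤ 10 * a + 9 * b + 6 * c ∧
      31 ≤ 11 * a + 8 * b + 6 * c) := by
    rintro ⟨h1, h2, h3⟩
    apply h
    intro t
    fin_cases t
    · exact h1
    · exact h2
    · exact h3
  have key : (¬ 28 ≤ 9 * a + 7 * b + 6 * c ∧ ¬ 31 ≤ 10 * a + 9 * b + 6 * c) ∨
      (¬ 28 ≤ 9 * a + 7 * b + 6 * c ∧ ¬ 31 ≤ 11 * a + 8 * b + 6 * c) ∨
      (¬ 31 ≤ 10 * a + 9 * b + 6 * c ∧ ¬ 31 ≤ 11 * a + 8 * b + 6 * c) := by
    have ha' : a ≤ 3 := by omega
    have hb' : b ≤ 4 := by omega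
    have hc' : c ≤ 5 := by omega
    interval_cases a <;> interval_cases b <;> interval_cases c <;> omega
  rcases key with ⟨h1, h2⟩ | ⟨h1, h2⟩ | ⟨h1, h2⟩
  · refine ⟨2, fun u hu => ?_⟩
    fin_cases u
    · exact h1
    · exact h2
    · exact absurd rfl hu
  · refine ⟨1, fun u hu => ?_⟩
    fin_cases u
    · exact h1
    · exact absurd rfl hu
    · exact h2
  · refine ⟨0, fun u hu => ?_⟩
    fin_cases u
    · exact absurd rfl hu
    · exact h1
    · exact h2

/-- The lattice set. -/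
def X : Set (Fin (m + 3) → ℤ) :=
  {x | (∀ j, 0 ≤ x j ∧ x j ≤ U m n l j) ∧ (∀ i : Fin n, 0 ≤ s l (i + 1 : ℤ) x) ∧
    ∀ (i : Fin n) (σ : Bool) (t : Fin 3),
      loc (s l (i + 1 : ℤ) x) (s l (i : ℤ) x) (ht l σ x) t}

/-- The point with local coordinates `(a, b, c)` at the corner `(i, σ)`. -/
def pt (i : ℤ) (σ : Bool) (a b c : ℤ) : Fin (m + 3) → ℤ := fun j =>
  if j.val = 0 then 2 * l * i - a + b else if j.val = 1 then l * i * (i - 1) - (i - 1) * a + i * b
    else if j.val = 2 then (if σ then 2 * l - c else c) else 0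

lemma pt_i0 (i : ℤ) (σ : Bool) (a b c : ℤ) :
    pt l i σ a b c (i0 m) = 2 * l * i - a + b := rfl

lemma pt_i1 (i : ℤ) (σ : Bool) (a b c : ℤ) :
    pt l i σ a b c (i1 m) = l * i * (i - 1) - (i - 1) * a + i * b := rfl

lemma pt_i2 (i : ℤ) (σ : Bool) (a b c : ℤ) :
    pt l i σ a b c (i2 m) = if σ then 2 * l - c else c := rfl

lemma s_pt (k i : ℤ) (σ : Bool) (a b c : ℤ) :
    s (m := m) l k (pt l i σ a b c) = l * (k - i) * (k - i + 1) + a * (k - i + 1) - b * (k - i) := by
  rw [s, pt_i0, pt_i1]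
  ring

lemma ht_pt_same (i : ℤ) (σ : Bool) (a b c : ℤ) :
    ht (m := m) l σ (pt l i σ a b c) = c := by
  rw [ht, pt_i2]
  cases σ <;> simp

lemma ht_pt_other (i : ℤ) (σ : Bool) (a b c : ℤ) :
    ht (m := m) l (!σ) (pt l i σ a b c) = 2 * l - c := by
  rw [ht, pt_i2]
  cases σ <;> simp

lemma s_pt_ge (k i a b : ℤ) (σ : Bool) (c : ℤ) (ha : 0 ≤ a) (hb : 0 ≤ b) (hal : a ≤ l) (hbl : b ≤ l)
    (hki : k ≠ i) (hki' : k ≠ i - 1) : l ≤ s (m := m) l k (pt l i σ a b c) := by
  rw [s_pt]
  rcases lt_or_gt_of_ne hki with h | h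
  · -- k ≤ i - 2
    obtain ⟨e, he, hei⟩ : ∃ e : ℤ, 0 ≤ e ∧ k - i = -(e + 2) :=
      ⟨i - k - 2, by omega, by ring⟩
    rw [hei]
    have : l * -(e + 2) * (-(e + 2) + 1) + a * (-(e + 2) + 1) - b * -(e + 2) =
        (e + 1) * (l * (e + 1) + (l - a)) + b * (e + 2) := by ring
    rw [this]
    have hl : 0 ≤ l := ha.trans hal
    have h1 : 0 ≤ b * (e + 2) := by positivity
    have h2 : 0 ≤ (e + 1) * (l - a) := mul_nonneg (by omega) (by omega)
    have h3 : l ≤ (e + 1) * (l * (e + 1)) := by nlinarith [mul_nonneg hl he, mul_nonneg (mul_nonneg hl he) he]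
    nlinarith
  · obtain ⟨e, he, hei⟩ : ∃ e : ℤ, 0 ≤ e ∧ k - i = e + 1 := ⟨k - i - 1, by omega, by ring⟩
    rw [hei]
    have : l * (e + 1) * (e + 1 + 1) + a * (e + 1 + 1) - b * (e + 1) =
        l * (e + 1) * (e + 1) + a * (e + 2) + (l - b) * (e + 1) := by ring
    rw [this]
    have hl : 0 ≤ l := ha.trans hal
    have h1 : 0 ≤ a * (e + 2) := by positivity
    have h2 : 0 ≤ (l - b) * (e + 1) := mul_nonneg (by omega) (by omega)
    have h3 : l ≤ l * (e + 1) * (e + 1) := by nlinarith [mul_nonneg hl he, mul_nonneg (mul_nonneg hl he) he]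
    linarith

lemma loc_of_large {a b c : ℤ} (ha : 0 ≤ a) (hb : 0 ≤ b) (hc : 0 ≤ c)
    (h : 5 ≤ a ∨ 5 ≤ b ∨ 6 ≤ c) (t : Fin 3) : loc a b c t := by
  fin_cases t
  · change 28 ≤ 9 * a + 7 * b + 6 * c
    omega
  · change 31 ≤ 10 * a + 9 * b + 6 * c
    omega
  · change 31 ≤ 11 * a + 8 * b + 6 * c
    omega

/-- The membership lemma. -/
lemma pt_mem (hl : 6 ≤ l) (i : ℤ) (hi1 : 1 ≤ i) (hin : i ≤ n) (σ : Bool) (a b c : ℤ)
    (ha : 0 ≤ a) (hb : 0 ≤ b) (hc : 0 ≤ c) (hal : a ≤ l) (hbl : b ≤ l) (hcl : c ≤ l)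
    (hloc : ∀ t, loc a b c t) : pt (m := m) l i σ a b c ∈ X n l := by
  refine ⟨?_, ?_, ?_⟩
  · rintro ⟨j, hj⟩
    rw [U, pt]
    rcases Nat.lt_or_ge j 3 with h3 | h3
    · interval_cases j
      · simp only [if_true]
        constructor
        · nlinarith
        · nlinarith
      · simp only [one_ne_zero, if_false, if_true]
        constructor
        · have e1 : l * i * (i - 1) - (i - 1) * a + i * b = (i - 1) * (l * (i - 1) + (l - a)) + i * b := by ring
          rw [e1]
          have : 0 ≤ (i - 1) * (l * (i - 1) + (l - a)) :=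
            mul_nonneg (by omega) (add_nonneg (mul_nonneg (by omega) (by omega)) (by omega))
          have h2 : 0 ≤ i * b := mul_nonneg (by omega) hb
          linarith
        · have h1 : 0 ≤ (i - 1) * a := mul_nonneg (by omega) ha
          have h2 : i * b ≤ i * l := mul_le_mul_of_nonneg_left hbl (by omega)
          have h3 : l * i * (i - 1) + i * l = l * (i * i) := by ring
          have h4 : i * i ≤ (n : ℤ) ^ 2 := by nlinarith
          have h5 : l * (i * i) ≤ l * (n : ℤ) ^ 2 := mul_le_mul_of_nonneg_left h4 (by omega)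
          linarith
      · simp only [OfNat.ofNat_ne_zero, OfNat.ofNat_ne_one, if_false, if_true]
        cases σ
        · simp only [Bool.false_eq_true, if_false]
          omega
        · simp only [if_true]
          omega
    · have h0 : j ≠ 0 := by omega
      have h1 : j ≠ 1 := by omega
      have h2 : j ≠ 2 := by omega
      simp [h0, h1, h2]
  · intro k
    by_cases h1 : (k : ℤ) + 1 = i
    · rw [s_pt, h1]
      simpa using ha
    by_cases h2 : (k : ℤ) + 1 = i - 1
    · rw [s_pt, h2]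
      have : l * (i - 1 - i) * (i - 1 - i + 1) + a * (i - 1 - i + 1) - b * (i - 1 - i) = b := by ring
      rw [this]
      exact hb
    · exact le_trans (by omega) (s_pt_ge l _ i a b σ c ha hb hal hbl h1 h2)
  · intro k τ t
    have hτ : 0 ≤ ht (m := m) l τ (pt l i σ a b c) := by
      by_cases hστ : τ = σ
      · subst hστ
        rw [ht_pt_same]
        exact hc
      · have : τ = !σ := by
          cases τ <;> cases σ <;> simp_all
        rw [this, ht_pt_other]
        omega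
    by_cases h1 : (k : ℤ) + 1 = i
    · have e1 : s (m := m) l ((k : ℤ) + 1) (pt l i σ a b c) = a := by
        rw [s_pt, h1]
        ring
      have e2 : s (m := m) l (k : ℤ) (pt l i σ a b c) = b := by
        rw [s_pt, ← h1]
        ring
      rw [e1, e2]
      by_cases hστ : τ = σ
      · subst hστ
        rw [ht_pt_same]
        exact hloc t
      · have : τ = !σ := by
          cases τ <;> cases σ <;> simp_all
        rw [this, ht_pt_other]
        exact loc_of_large ha hb (by omega) (Or.inr (Or.inr (by omega))) t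
    · by_cases h2 : (k : ℤ) = i
      · have e2 := s_pt_ge (m := m) l ((k : ℤ) + 1) i a b σ c ha hb hal hbl (by omega) (by omega)
        have e1 : 0 ≤ s (m := m) l (k : ℤ) (pt l i σ a b c) := by
          rw [s_pt, h2]
          simpa using ha
        exact loc_of_large (by omega) e1 hτ (Or.inl (by omega)) t
      · by_cases h3 : (k : ℤ) + 1 = i - 1
        · have e2 := s_pt_ge (m := m) l (k : ℤ) i a b σ c ha hb hal hbl (by omega) (by omega)
          have e1 : 0 ≤ s (m := m) l ((k : ℤ) + 1) (pt l i σ a b c) := by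
            rw [s_pt, h3]
            have : l * (i - 1 - i) * (i - 1 - i + 1) + a * (i - 1 - i + 1) - b * (i - 1 - i) = b := by
              ring
            rw [this]
            exact hb
          exact loc_of_large e1 (by omega) hτ (Or.inr (Or.inl (by omega))) t
        · have e1 := s_pt_ge (m := m) l ((k : ℤ) + 1) i a b σ c ha hb hal hbl h1 h3
          have e2 := s_pt_ge (m := m) l (k : ℤ) i a b σ c ha hb hal hbl h2 (by omega)
          exact loc_of_large (by omega) (by omega) hτ (Or.inl (by omega)) t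

end construction

/-! ### Affine functions -/

/-- `g` is the restriction to `ℤ^d` of a real affine function. -/
def IsAff (g : (Fin d → ℤ) → ℤ) : Prop :=
  ∃ (φ : (Fin d → ℝ) →ₗ[ℝ] ℝ) (r : ℝ), ∀ z, (g z : ℝ) = φ (toReal z) + r

lemma IsAff.coord (j : Fin d) : IsAff fun z : Fin d → ℤ => z j :=
  ⟨LinearMap.proj j, 0, fun z => by simp [toReal]⟩

lemma IsAff.const (c : ℤ) : IsAff fun _ : Fin d → ℤ => c := ⟨0, c, fun z => by simp⟩

lemma IsAff.add {g h : (Fin d → ℤ) → ℤ} (hg : IsAff g) (hh : IsAff h) :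
    IsAff fun z => g z + h z := by
  obtain ⟨φ, r, h1⟩ := hg
  obtain ⟨ψ, t, h2⟩ := hh
  refine ⟨φ + ψ, r + t, fun z => ?_⟩
  push_cast
  rw [h1, h2, LinearMap.add_apply]
  ring

lemma IsAff.const_mul {g : (Fin d → ℤ) → ℤ} (c : ℤ) (hg : IsAff g) :
    IsAff fun z => c * g z := by
  obtain ⟨φ, r, h1⟩ := hg
  refine ⟨(c : ℝ) • φ, c * r, fun z => ?_⟩
  push_cast
  rw [h1, LinearMap.smul_apply, smul_eq_mul]
  ring

lemma IsAff.sub {g h : (Fin d → ℤ) → ℤ} (hg : IsAff g) (hh : IsAff h) :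
    IsAff fun z => g z - h z := by
  have := hg.add (hh.const_mul (-1))
  refine (congrArg IsAff (funext fun z => ?_)).mp this
  ring

/-- `hidingBound_le` for cells separated by integral affine functions. -/
lemma hidingBound_le' {X : Set (Fin d → ℤ)} {ι : Type} [Fintype ι] (Q : ι → (Fin d → ℤ) → Prop)
    (hQ : ∀ p, p ∉ X → ∃ c, Q c p)
    (hQ2 : ∀ c p q, Q c p → Q c q → ∃ g : (Fin d → ℤ) → ℤ, IsAff g ∧
      (∀ z ∈ X, 0 ≤ g z) ∧ g p < 0 ∧ g q < 0) :
    hidingBound X ≤ (Fintype.card ι : ℕ∞) := by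
  refine hidingBound_le Q hQ fun c p q hp hq => ?_
  obtain ⟨g, ⟨φ, r, hg⟩, hX, h1, h2⟩ := hQ2 c p q hp hq
  refine ⟨-φ, r, fun z hz => ?_, ?_, ?_⟩
  · have h3 : (0 : ℝ) ≤ g z := by exact_mod_cast hX z hz
    rw [hg] at h3
    rw [LinearMap.neg_apply]
    linarith
  · have h3 : (g p : ℝ) < 0 := by exact_mod_cast h1
    rw [hg] at h3
    rw [LinearMap.neg_apply]
    linarith
  · have h3 : (g q : ℝ) < 0 := by exact_mod_cast h2
    rw [hg] at h3
    rw [LinearMap.neg_apply]
    linarith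

/-- Sets of lattice points defined by finitely many integral affine inequalities. -/
lemma of_inequalities' {X : Set (Fin d → ℤ)} {ι : Type} [Fintype ι]
    (g : ι → ((Fin d → ℤ) → ℤ)) (hg : ∀ i, IsAff (g i))
    (hX : ∀ z, z ∈ X ↔ ∀ i, 0 ≤ g i z) :
    LatticeConvex X ∧ HasRelaxation X (Fintype.card ι) := by
  choose φ r h using hg
  refine of_inequalities (fun i => -φ i) r fun z => ?_
  rw [hX]
  refine forall_congr' fun i => ?_
  have h3 : (0 : ℤ) ≤ g i z ↔ (0 : ℝ) ≤ g i z := by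
    constructor
    · intro h
      exact_mod_cast h
    · intro h
      exact_mod_cast h
  rw [h3, h, LinearMap.neg_apply]
  constructor <;> intro h4 <;> linarith

/-- A set containing a point and its translates by all unit vectors is full-dimensional. -/
lemma fullDimensional_of {X : Set (Fin d → ℤ)} (z : Fin d → ℤ) (hz : z ∈ X)
    (h : ∀ j, z + Pi.single j 1 ∈ X) : FullDimensional X := by
  have hzS : toReal z ∈ affineSpan ℝ (toReal '' X) :=
    subset_affineSpan ℝ _ ⟨z, hz, rfl⟩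
  have hne : (affineSpan ℝ (toReal '' X) : Set (Fin d → ℝ)).Nonempty := ⟨_, hzS⟩
  rw [FullDimensional, ← AffineSubspace.direction_eq_top_iff_of_nonempty hne, eq_top_iff]
  have hdir : ∀ j, (Pi.single j (1 : ℝ) : Fin d → ℝ) ∈
      (affineSpan ℝ (toReal '' X)).direction := by
    intro j
    have h1 : toReal (z + Pi.single j 1) ∈ affineSpan ℝ (toReal '' X) :=
      subset_affineSpan ℝ _ ⟨_, h j, rfl⟩
    have h2 := AffineSubspace.vsub_mem_direction h1 hzS
    have h3 : toReal (z + Pi.single j 1) -ᵥ toReal z = (Pi.single j (1 : ℝ) : Fin d → ℝ) := by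
      ext i
      by_cases hij : i = j
      · subst hij
        simp [toReal]
      · simp [toReal, Pi.single_eq_of_ne hij]
    rwa [h3] at h2
  intro v _
  rw [pi_eq_sum_univ v]
  refine Submodule.sum_mem _ fun i _ => Submodule.smul_mem _ _ ?_
  have : (fun j => if i = j then (1 : ℝ) else 0) = Pi.single i 1 := by
    ext j
    simp [Pi.single_apply, eq_comm]
  rw [this]
  exact hdir i

/-! ### The main theorem -/

section main

variable {m : ℕ} (n : ℕ) (l : ℤ)

lemma isAff_s (i : ℤ) : IsAff (s (m := m) l i) := by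
  have h1 := ((IsAff.coord (i1 m)).sub ((IsAff.coord (i0 m)).const_mul i)).add
    (IsAff.const (l * i * (i + 1)))
  exact h1

lemma isAff_ht (σ : Bool) : IsAff (ht (m := m) l σ) := by
  cases σ
  · have : ht (m := m) l false = fun x => x (i2 m) := by
      ext x
      simp [ht]
    rw [this]
    exact IsAff.coord _
  · have : ht (m := m) l true = fun x => 2 * l - x (i2 m) := by
      ext x
      simp [ht]
    rw [this]
    exact (IsAff.const (2 * l)).sub (IsAff.coord _)

/-- The local inequalities as affine functions. -/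
def locg (a b c : ℤ) : Fin 3 → ℤ :=
  ![9 * a + 7 * b + 6 * c - 28, 10 * a + 9 * b + 6 * c - 31, 11 * a + 8 * b + 6 * c - 31]

lemma loc_iff (a b c : ℤ) (t : Fin 3) : loc a b c t ↔ 0 ≤ locg a b c t := by
  fin_cases t
  · change 28 ≤ 9 * a + 7 * b + 6 * c ↔ 0 ≤ 9 * a + 7 * b + 6 * c - 28
    omega
  · change 31 ≤ 10 * a + 9 * b + 6 * c ↔ 0 ≤ 10 * a + 9 * b + 6 * c - 31
    omega
  · change 31 ≤ 11 * a + 8 * b + 6 * c ↔ 0 ≤ 11 * a + 8 * b + 6 * c - 31
    omega

lemma isAff_locg {f g h : (Fin d → ℤ) → ℤ} (hf : IsAff f) (hg : IsAff g) (hh : IsAff h)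
    (t : Fin 3) : IsAff fun x => locg (f x) (g x) (h x) t := by
  fin_cases t
  · exact (((hf.const_mul 9).add (hg.const_mul 7)).add (hh.const_mul 6)).sub (IsAff.const 28)
  · exact (((hf.const_mul 10).add (hg.const_mul 9)).add (hh.const_mul 6)).sub (IsAff.const 31)
  · exact (((hf.const_mul 11).add (hg.const_mul 8)).add (hh.const_mul 6)).sub (IsAff.const 31)

/-- The inequalities defining `X`. -/
def ineq : (Fin (m + 3) × Bool) ⊕ Fin n ⊕ (Fin n × Bool × Fin 3) → (Fin (m + 3) → ℤ) → ℤ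
  | Sum.inl (j, false) => fun x => x j
  | Sum.inl (j, true) => fun x => U m n l j - x j
  | Sum.inr (Sum.inl i) => s l (i + 1 : ℤ)
  | Sum.inr (Sum.inr (i, σ, t)) => fun x => locg (s l (i + 1 : ℤ) x) (s l (i : ℤ) x) (ht l σ x) t

lemma isAff_ineq (i) : IsAff (ineq (m := m) n l i) := by
  rcases i with ⟨j, b⟩ | i | ⟨i, σ, t⟩
  · cases b
    · exact IsAff.coord j
    · exact (IsAff.const _).sub (IsAff.coord j)
  · exact isAff_s l _
  · exact isAff_locg (isAff_s l _) (isAff_s l _) (isAff_ht l σ) t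

lemma mem_X_iff (x : Fin (m + 3) → ℤ) : x ∈ X n l ↔ ∀ i, 0 ≤ ineq (m := m) n l i x := by
  constructor
  · rintro ⟨h1, h2, h3⟩ i
    rcases i with ⟨j, b⟩ | i | ⟨i, σ, t⟩
    · cases b
      · exact (h1 j).1
      · have := (h1 j).2
        change 0 ≤ U m n l j - x j
        omega
    · exact h2 i
    · exact (loc_iff _ _ _ t).mp (h3 i σ t)
  · intro h
    refine ⟨fun j => ⟨h (Sum.inl (j, false)), ?_⟩, fun i => h (Sum.inr (Sum.inl i)),
      fun i σ t => (loc_iff _ _ _ t).mpr (h (Sum.inr (Sum.inr (i, σ, t))))⟩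
    have : 0 ≤ U m n l j - x j := h (Sum.inl (j, true))
    omega

/-- The cells: one for every facet of the big prism, one for every corner. -/
def cell : (Fin (m + 3) × Bool) ⊕ Fin n ⊕ (Fin n × Bool) → (Fin (m + 3) → ℤ) → Prop
  | Sum.inl (j, false) => fun x => x j < 0
  | Sum.inl (j, true) => fun x => U m n l j - x j < 0
  | Sum.inr (Sum.inl i) => fun x => s l (i + 1 : ℤ) x < 0
  | Sum.inr (Sum.inr (i, σ)) => fun x => 0 ≤ s l (i + 1 : ℤ) x ∧ 0 ≤ s l (i : ℤ) x ∧
      0 ≤ ht l σ x ∧ ¬ ∀ t, loc (s l (i + 1 : ℤ) x) (s l (i : ℤ) x) (ht l σ x) t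

lemma exists_cell (x : Fin (m + 3) → ℤ) (hx : x ∉ X n l) : ∃ c, cell (m := m) n l c x := by
  by_contra hcon
  push Not at hcon
  apply hx
  have h1 : ∀ j, 0 ≤ x j ∧ x j ≤ U m n l j := by
    intro j
    have h1 : ¬ (x j < 0) := hcon (Sum.inl (j, false))
    have h2 : ¬ (U m n l j - x j < 0) := hcon (Sum.inl (j, true))
    omega
  have h2 : ∀ i : Fin n, 0 ≤ s l (i + 1 : ℤ) x := by
    intro i
    have : ¬ (s l (i + 1 : ℤ) x < 0) := hcon (Sum.inr (Sum.inl i))
    omega
  have h3 : ∀ i : Fin n, 0 ≤ s l (i : ℤ) x := by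
    rintro ⟨i, hi⟩
    rcases Nat.eq_zero_or_pos i with h0 | h0
    · subst h0
      have := (h1 (i1 m)).1
      simpa [s] using this
    · have := h2 ⟨i - 1, by omega⟩
      have e : (((⟨i - 1, by omega⟩ : Fin n) : ℕ) : ℤ) + 1 = (i : ℤ) := by
        simp only
        omega
      rw [e] at this
      exact this
  have h4 : ∀ σ, 0 ≤ ht l σ x := by
    intro σ
    have h5 := h1 (i2 m)
    have h6 : U m n l (i2 m) = 2 * l := rfl
    rw [h6] at h5
    cases σ
    · simpa [ht] using h5.1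
    · have := h5.2
      simp only [ht, if_true]
      omega
  refine ⟨h1, h2, fun i σ t => ?_⟩
  by_contra hloc
  exact hcon (Sum.inr (Sum.inr (i, σ))) ⟨h2 i, h3 i, h4 σ, fun h => hloc (h t)⟩

lemma cell_sep (c) (p q : Fin (m + 3) → ℤ) (hp : cell (m := m) n l c p)
    (hq : cell (m := m) n l c q) :
    ∃ g : (Fin (m + 3) → ℤ) → ℤ, IsAff g ∧ (∀ z ∈ X n l, 0 ≤ g z) ∧ g p < 0 ∧ g q < 0 := by
  rcases c with ⟨j, b⟩ | i | ⟨i, σ⟩
  · cases b
    · exact ⟨_, isAff_ineq n l (Sum.inl (j, false)), fun z hz => (mem_X_iff n l z).mp hz _, hp, hq⟩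
    · exact ⟨_, isAff_ineq n l (Sum.inl (j, true)), fun z hz => (mem_X_iff n l z).mp hz _, hp, hq⟩
  · exact ⟨_, isAff_ineq n l (Sum.inr (Sum.inl i)), fun z hz => (mem_X_iff n l z).mp hz _, hp, hq⟩
  · obtain ⟨a1, a2, a3, a4⟩ := hp
    obtain ⟨b1, b2, b3, b4⟩ := hq
    obtain ⟨t, ht1⟩ := loc_two _ _ _ a1 a2 a3 a4
    obtain ⟨t', ht2⟩ := loc_two _ _ _ b1 b2 b3 b4
    have hfin : ∀ t t' : Fin 3, ∃ u : Fin 3, u ≠ t ∧ u ≠ t' := by decide
    obtain ⟨u, hu1, hu2⟩ := hfin t t'
    refine ⟨_, isAff_ineq n l (Sum.inr (Sum.inr (i, σ, u))),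
      fun z hz => (mem_X_iff n l z).mp hz _, ?_, ?_⟩
    · have := ht1 u hu1
      rw [loc_iff] at this
      exact not_le.mp this
    · have := ht2 u hu2
      rw [loc_iff] at this
      exact not_le.mp this

lemma hidingBound_X_le : hidingBound (X (m := m) n l) ≤ ((2 * (m + 3) + 3 * n : ℕ) : ℕ∞) := by
  refine (hidingBound_le' (cell n l) (exists_cell n l) (cell_sep n l)).trans (le_of_eq ?_)
  congr 1
  simp only [Fintype.card_sum, Fintype.card_prod, Fintype.card_fin, Fintype.card_bool]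
  ring

lemma X_finite : (X (m := m) n l).Finite := by
  refine (Set.finite_Icc (0 : Fin (m + 3) → ℤ) (U m n l)).subset fun x hx => ?_
  exact ⟨fun j => (hx.1 j).1, fun j => (hx.1 j).2⟩

lemma add_single_mem {x : Fin (m + 3) → ℤ} (hx : x ∈ X n l) (j : Fin (m + 3)) (hj : 3 ≤ j.val)
    (h0 : x j = 0) : x + Pi.single j 1 ∈ X n l := by
  have hne0 : i0 m ≠ j := fun h => by
    have := congrArg Fin.val h
    simp only [i0] at this
    omega
  have hne1 : i1 m ≠ j := fun h => by
    have := congrArg Fin.val h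
    simp only [i1] at this
    omega
  have hne2 : i2 m ≠ j := fun h => by
    have := congrArg Fin.val h
    simp only [i2] at this
    omega
  have e0 : (x + Pi.single j 1 : Fin (m + 3) → ℤ) (i0 m) = x (i0 m) := by
    simp [Pi.single_eq_of_ne hne0]
  have e1 : (x + Pi.single j 1 : Fin (m + 3) → ℤ) (i1 m) = x (i1 m) := by
    simp [Pi.single_eq_of_ne hne1]
  have e2 : (x + Pi.single j 1 : Fin (m + 3) → ℤ) (i2 m) = x (i2 m) := by
    simp [Pi.single_eq_of_ne hne2]
  have hs : ∀ i, s l i (x + Pi.single j 1) = s l i x := by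
    intro i
    rw [s, s, e0, e1]
  have hh : ∀ σ, ht l σ (x + Pi.single j 1) = ht l σ x := by
    intro σ
    rw [ht, ht, e2]
  refine ⟨fun k => ?_, fun i => ?_, fun i σ t => ?_⟩
  · by_cases hk : k = j
    · subst hk
      have hU : U m n l k = 1 := by
        unfold U
        rw [if_neg (by omega), if_neg (by omega), if_neg (by omega)]
      rw [hU]
      simp [h0]
    · have := hx.1 k
      simpa [Pi.single_eq_of_ne hk] using this
  · rw [hs]
    exact hx.2.1 i
  · rw [hs, hs, hh]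
    exact hx.2.2 i σ t

lemma X_fullDimensional (hn : 1 ≤ n) (hl : 8 ≤ l) : FullDimensional (X (m := m) n l) := by
  have hn' : (1 : ℤ) ≤ n := by exact_mod_cast hn
  have hmem : ∀ a b c : ℤ, 6 ≤ a → 6 ≤ b → 6 ≤ c → a ≤ 8 → b ≤ 8 → c ≤ 8 →
      pt (m := m) l 1 false a b c ∈ X n l := by
    intro a b c h1 h2 h3 h4 h5 h6
    exact pt_mem n l (by omega) 1 le_rfl hn' false a b c (by omega) (by omega) (by omega)
      (by omega) (by omega) (by omega) (loc_of_large (by omega) (by omega) (by omega)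
        (Or.inl (by omega)))
  have h766 := hmem 7 6 6 (by omega) (by omega) (by omega) (by omega) (by omega) (by omega)
  refine fullDimensional_of (pt l 1 false 7 6 6) h766 ?_
  rintro ⟨j, hj⟩
  rcases Nat.lt_or_ge j 3 with h3 | h3
  · interval_cases j
    · have : pt (m := m) l 1 false 7 6 6 + Pi.single ⟨0, hj⟩ 1 = pt l 1 false 6 6 6 := by
        ext ⟨i, hi⟩
        rcases Nat.lt_or_ge i 3 with h3 | h3
        · interval_cases i <;> simp [pt] <;> ring
        · have e0 : i ≠ 0 := by omega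
          have e1 : i ≠ 1 := by omega
          have e2 : i ≠ 2 := by omega
          simp [pt, e0, e1, e2]
      rw [this]
      exact hmem 6 6 6 (by omega) (by omega) (by omega) (by omega) (by omega) (by omega)
    · have : pt (m := m) l 1 false 7 6 6 + Pi.single ⟨1, hj⟩ 1 = pt l 1 false 8 7 6 := by
        ext ⟨i, hi⟩
        rcases Nat.lt_or_ge i 3 with h3 | h3
        · interval_cases i <;> simp [pt] <;> ring
        · have e0 : i ≠ 0 := by omega
          have e1 : i ≠ 1 := by omega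
          have e2 : i ≠ 2 := by omega
          simp [pt, e0, e1, e2]
      rw [this]
      exact hmem 8 7 6 (by omega) (by omega) (by omega) (by omega) (by omega) (by omega)
    · have : pt (m := m) l 1 false 7 6 6 + Pi.single ⟨2, hj⟩ 1 = pt l 1 false 7 6 7 := by
        ext ⟨i, hi⟩
        rcases Nat.lt_or_ge i 3 with h3 | h3
        · interval_cases i <;> simp [pt]
        · have e0 : i ≠ 0 := by omega
          have e1 : i ≠ 1 := by omega
          have e2 : i ≠ 2 := by omega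
          simp [pt, e0, e1, e2]
      rw [this]
      exact hmem 7 6 7 (by omega) (by omega) (by omega) (by omega) (by omega) (by omega)
  · refine add_single_mem n l h766 ⟨j, hj⟩ h3 ?_
    simp only [pt]
    rw [if_neg (by omega), if_neg (by omega), if_neg (by omega)]

/-- Local coordinates of the three bad points. -/
def bad : Fin 3 → ℤ × ℤ × ℤ := ![(0, 0, 5), (0, 3, 1), (3, 0, 0)]

lemma bad_bounds (j : Fin 3) : 0 ≤ (bad j).1 ∧ (bad j).1 ≤ 3 ∧ 0 ≤ (bad j).2.1 ∧
    (bad j).2.1 ≤ 3 ∧ 0 ≤ (bad j).2.2 ∧ (bad j).2.2 ≤ 5 := by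
  fin_cases j <;> simp [bad]

lemma bad_not_loc (j : Fin 3) : ¬ ∀ t, loc (bad j).1 (bad j).2.1 (bad j).2.2 t := by
  intro h
  fin_cases j
  · have := h 1
    change (31 : ℤ) ≤ 10 * 0 + 9 * 0 + 6 * 5 at this
    omega
  · have := h 0
    change (28 : ℤ) ≤ 9 * 0 + 7 * 3 + 6 * 1 at this
    omega
  · have := h 0
    change (28 : ℤ) ≤ 9 * 3 + 7 * 0 + 6 * 0 at this
    omega

/-- The bad points at a corner. -/
def P (v : Fin n × Bool) (j : Fin 3) : Fin (m + 3) → ℤ :=
  pt l (v.1 + 1 : ℤ) v.2 (bad j).1 (bad j).2.1 (bad j).2.2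

lemma P_notMem (v : Fin n × Bool) (j : Fin 3) : P (m := m) n l v j ∉ X n l := by
  intro h
  apply bad_not_loc j
  intro t
  have := h.2.2 v.1 v.2 t
  have e1 : s (m := m) l ((v.1 : ℤ) + 1) (P n l v j) = (bad j).1 := by
    rw [P, s_pt]
    ring
  have e2 : s (m := m) l (v.1 : ℤ) (P n l v j) = (bad j).2.1 := by
    rw [P, s_pt]
    ring
  have e3 : ht (m := m) l v.2 (P n l v j) = (bad j).2.2 := by
    rw [P, ht_pt_same]
  rwa [e1, e2, e3] at this

lemma P_sum (v : Fin n × Bool) : P (m := m) n l v 0 + P n l v 1 + P n l v 2 =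
    pt l (v.1 + 1 : ℤ) v.2 1 1 2 + pt l (v.1 + 1 : ℤ) v.2 1 1 2 + pt l (v.1 + 1 : ℤ) v.2 1 1 2 := by
  obtain ⟨i, σ⟩ := v
  ext ⟨k, hk⟩
  rcases Nat.lt_or_ge k 3 with h3 | h3
  · interval_cases k
    · simp [P, pt, bad]
      ring
    · simp [P, pt, bad]
      ring
    · cases σ
      · simp [P, pt, bad]
      · simp [P, pt, bad]
        ring
  · have e0 : k ≠ 0 := by omega
    have e1 : k ≠ 1 := by omega
    have e2 : k ≠ 2 := by omega
    simp [P, pt, e0, e1, e2]

lemma P_sep_lt (hl : 5 * (n : ℤ) + 11 ≤ l) (i i' : Fin n) (σ σ' : Bool) (hii : i < i')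
    (j j' : Fin 3) :
    ∃ w, P (m := m) n l (i, σ) j + w ∈ X n l ∧ P (m := m) n l (i', σ') j' - w ∈ X n l := by
  obtain ⟨b1, b2, b3, b4, b5, b6⟩ := bad_bounds j
  obtain ⟨c1, c2, c3, c4, c5, c6⟩ := bad_bounds j'
  have hi : (i : ℤ) < n := by exact_mod_cast i.2
  have hi' : (i' : ℤ) < n := by exact_mod_cast i'.2
  have hi0 : (0 : ℤ) ≤ (i : ℤ) := by positivity
  have hlt : (i : ℤ) < (i' : ℤ) := by exact_mod_cast hii
  refine ⟨pt l (i + 1 : ℤ) σ (bad j).1 ((bad j).2.1 + 5) (bad j).2.2 - P n l (i, σ) j, ?_, ?_⟩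
  · rw [add_sub_cancel]
    exact pt_mem n l (by omega) _ (by omega) (by omega) σ _ _ _ b1 (by omega) b5 (by omega)
      (by omega) (by omega) (loc_of_large b1 (by omega) b5 (Or.inr (Or.inl (by omega))))
  · have key : P (m := m) n l (i', σ') j' -
        (pt l (i + 1 : ℤ) σ (bad j).1 ((bad j).2.1 + 5) (bad j).2.2 - P n l (i, σ) j) =
        pt l (i' + 1 : ℤ) σ' ((bad j').1 + 5 * (i' - i)) ((bad j').2.1 + 5 * (i' - 1 - i))
          (bad j').2.2 := by
      ext ⟨k, hk⟩
      rcases Nat.lt_or_ge k 3 with h3 | h3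
      · interval_cases k
        · simp [P, pt]
          ring
        · simp [P, pt]
          ring
        · simp [P, pt]
      · have e0 : k ≠ 0 := by omega
        have e1 : k ≠ 1 := by omega
        have e2 : k ≠ 2 := by omega
        simp [P, pt, e0, e1, e2]
    rw [key]
    exact pt_mem n l (by omega) _ (by omega) (by omega) σ' _ _ _ (by omega) (by omega) c5
      (by omega) (by omega) (by omega)
      (loc_of_large (by omega) (by omega) c5 (Or.inl (by omega)))

lemma P_sep (hl : 5 * (n : ℤ) + 11 ≤ l) (v v' : Fin n × Bool) (hne : v ≠ v') (j j' : Fin 3) :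
    ∃ w, P (m := m) n l v j + w ∈ X n l ∧ P (m := m) n l v' j' - w ∈ X n l := by
  obtain ⟨i, σ⟩ := v
  obtain ⟨i', σ'⟩ := v'
  rcases lt_trichotomy i i' with h | h | h
  · exact P_sep_lt n l hl i i' σ σ' h j j'
  · subst h
    have hσ : σ' = !σ := by
      cases σ <;> cases σ' <;> simp_all
    subst hσ
    obtain ⟨b1, b2, b3, b4, b5, b6⟩ := bad_bounds j
    obtain ⟨c1, c2, c3, c4, c5, c6⟩ := bad_bounds j'
    have hi : (i : ℤ) < n := by exact_mod_cast i.2
    have hi0 : (0 : ℤ) ≤ (i : ℤ) := by positivity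
    refine ⟨pt l (i + 1 : ℤ) σ (bad j).1 (bad j).2.1 ((bad j).2.2 + 6) - P n l (i, σ) j, ?_, ?_⟩
    · rw [add_sub_cancel]
      exact pt_mem n l (by omega) _ (by omega) (by omega) σ _ _ _ b1 b3 (by omega) (by omega)
        (by omega) (by omega) (loc_of_large b1 b3 (by omega) (Or.inr (Or.inr (by omega))))
    · have key : P (m := m) n l (i, !σ) j' -
          (pt l (i + 1 : ℤ) σ (bad j).1 (bad j).2.1 ((bad j).2.2 + 6) - P n l (i, σ) j) =
          pt l (i + 1 : ℤ) (!σ) (bad j').1 (bad j').2.1 ((bad j').2.2 + 6) := by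
        ext ⟨k, hk⟩
        rcases Nat.lt_or_ge k 3 with h3 | h3
        · interval_cases k
          · simp [P, pt]
          · simp [P, pt]
          · cases σ
            · simp [P, pt]
              ring
            · simp [P, pt]
        · have e0 : k ≠ 0 := by omega
          have e1 : k ≠ 1 := by omega
          have e2 : k ≠ 2 := by omega
          simp [P, pt, e0, e1, e2]
      rw [key]
      exact pt_mem n l (by omega) _ (by omega) (by omega) _ _ _ _ c1 c3 (by omega) (by omega)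
        (by omega) (by omega) (loc_of_large c1 c3 (by omega) (Or.inr (Or.inr (by omega))))
  · obtain ⟨w, hw1, hw2⟩ := P_sep_lt (m := m) n l hl i' i σ' σ h j' j
    exact ⟨-w, by simpa [sub_eq_add_neg] using hw2, by simpa [sub_eq_add_neg] using hw1⟩

lemma rc_X_ge (hl : 5 * (n : ℤ) + 11 ≤ l) {k : ℕ} (hk : HasRelaxation (X (m := m) n l) k) :
    4 * n ≤ k := by
  have h := card_le_of_hasRelaxation (P (m := m) n l)
    (fun v => pt l (v.1 + 1 : ℤ) v.2 1 1 2) (P_notMem n l) ?_ (P_sum n l) (P_sep n l hl) hk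
  · simp only [Fintype.card_prod, Fintype.card_fin, Fintype.card_bool] at h
    omega
  · intro v
    have hi : ((v.1 : ℕ) : ℤ) < n := by exact_mod_cast v.1.2
    have hi0 : (0 : ℤ) ≤ ((v.1 : ℕ) : ℤ) := by positivity
    refine pt_mem n l (by omega) _ (by omega) (by omega) _ 1 1 2 (by omega) (by omega) (by omega)
      (by omega) (by omega) (by omega) fun t => ?_
    fin_cases t
    · change (28 : ℤ) ≤ 9 * 1 + 7 * 1 + 6 * 2
      omega
    · change (31 : ℤ) ≤ 10 * 1 + 9 * 1 + 6 * 2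
      omega
    · change (31 : ℤ) ≤ 11 * 1 + 8 * 1 + 6 * 2
      omega

end main

/-- **Main theorem.**  In every dimension `d ≥ 3` the difference between the relaxation
complexity and the hiding set bound is unbounded over finite, full-dimensional, lattice-convex
sets. -/
theorem result (d : ℕ) (hd : 3 ≤ d) (h : ℕ) :
    ∃ X : Set (Fin d → ℤ), X.Finite ∧ LatticeConvex X ∧ FullDimensional X ∧
      hidingBound X + (h : ℕ∞) < (rc X : ℕ∞) := by
  obtain ⟨m, rfl⟩ := Nat.exists_eq_add_of_le' hd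
  set n : ℕ := 2 * (m + 3) + h + 1 with hn
  set l : ℤ := 5 * (n : ℤ) + 11 with hl
  obtain ⟨h1, h2⟩ := of_inequalities' (ineq (m := m) n l) (isAff_ineq n l) (mem_X_iff n l)
  refine ⟨X n l, X_finite n l, h1, X_fullDimensional n l (by omega) (by omega), ?_⟩
  have hrc : 4 * n ≤ rc (X (m := m) n l) :=
    le_csInf ⟨_, h2⟩ fun k hk => rc_X_ge n l le_rfl hk
  calc hidingBound (X (m := m) n l) + (h : ℕ∞)
      ≤ ((2 * (m + 3) + 3 * n : ℕ) : ℕ∞) + (h : ℕ∞) := by
        gcongr
        exact hidingBound_X_le n l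
    _ = ((2 * (m + 3) + 3 * n + h : ℕ) : ℕ∞) := by push_cast; ring
    _ < ((4 * n : ℕ) : ℕ∞) := by
        exact_mod_cast (by omega : 2 * (m + 3) + 3 * n + h < 4 * n)
    _ ≤ (rc (X (m := m) n l) : ℕ∞) := by exact_mod_cast hrc

end

end Pool.Agent.Results.MP_288038_co.HidingGap
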